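import Mathlib
import Pool.Agent.Y189.BA.Pi

/-!
# `𝓛` is a Banach algebra under pointwise multiplication (MP_20ef18_an, Q2)

The space `𝓛` consists of the power series whose coefficients are the antidiagonal sums of a matrix
in the injective tensor product `ℓ¹ ⊗ ℓ¹`. We prove that it is closed under products and that
`‖φψ‖ ≤ 32768 ‖φ‖ ‖ψ‖`.

Proof: if `γ`, `δ` represent `φ`, `ψ` then their two dimensional convolution represents `φψ`, and
its value at `(x, y)` is the pairing of `γ` with the matrix `δ(x(m + ·), y(k + ·))`. By Grothendieck's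
inequality and Pietsch domination the latter matrix has the form `⟨a m, b k⟩` with bounded vectors
in a Hilbert space, so Grothendieck's inequality for `γ` bounds the pairing.
-/

set_option autoImplicit false
open Finset

namespace Pool.Agent.Results.MP_20ef18_an.BanachAlgebra

/-- The injective norm of the matrix `γ` is at most `B`: every finite section of the form
`(x, y) ↦ ∑ γ m k * x m * y k` is bounded by `B` when `|x m| ≤ 1` and `|y k| ≤ 1`. -/
def InjBound (γ : ℕ → ℕ → ℂ) (B : ℝ) : Prop :=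
  ∀ (x y : ℕ → ℂ), (∀ m, ‖x m‖ ≤ 1) → (∀ k, ‖y k‖ ≤ 1) → ∀ M : ℕ,
    ‖∑ m ∈ range M, ∑ k ∈ range M, γ m k * x m * y k‖ ≤ B

/-- `γ` belongs to the injective tensor product: it is a limit, in the injective norm, of matrices
with finitely many nonzero entries. -/
def InInjective (γ : ℕ → ℕ → ℂ) : Prop :=
  ∀ ε > 0, ∃ δ : ℕ → ℕ → ℂ, (∃ M, ∀ m k, M ≤ m ∨ M ≤ k → δ m k = 0) ∧
    InjBound (fun m k => γ m k - δ m k) ε

/-- `φ` has Taylor coefficients given by the antidiagonal sums of the matrix `γ`. -/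
def Represents (γ : ℕ → ℕ → ℂ) (φ : PowerSeries ℂ) : Prop :=
  ∀ n, ∑ p ∈ HasAntidiagonal.antidiagonal n, γ p.1 p.2 = PowerSeries.coeff n φ

/-- The space `𝓛`: power series whose Taylor coefficients are the antidiagonal sums of a matrix in
the injective tensor product of `ℓ¹` with itself. -/
def spaceL : Set (PowerSeries ℂ) := {φ | ∃ γ B, InInjective γ ∧ InjBound γ B ∧ Represents γ φ}

/-- The norm of `𝓛`: the infimum of the injective norms of such matrices. -/
noncomputable def normL (φ : PowerSeries ℂ) : ℝ :=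
  sInf {B : ℝ | ∃ γ, InInjective γ ∧ InjBound γ B ∧ Represents γ φ}

/-- two dimensional convolution -/
noncomputable def conv (γ δ : ℕ → ℕ → ℂ) (a b : ℕ) : ℂ :=
  ∑ p ∈ HasAntidiagonal.antidiagonal a, ∑ q ∈ HasAntidiagonal.antidiagonal b,
    γ p.1 q.1 * δ p.2 q.2

lemma sum_anti {A : Type} [AddCommMonoid A] (N : ℕ) (F : ℕ → ℕ → A) :
    ∑ a ∈ range N, ∑ p ∈ HasAntidiagonal.antidiagonal a, F p.1 p.2
      = ∑ m ∈ range N, ∑ n ∈ range N, if m + n < N then F m n else 0 := by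
  rw [← sum_product' (range N) (range N) (fun m n => if m + n < N then F m n else 0),
    ← sum_filter]
  rw [← sum_fiberwise_of_maps_to (s := (range N ×ˢ range N).filter fun p => p.1 + p.2 < N)
    (t := range N) (g := fun p => p.1 + p.2) (fun p hp => by
      simp only [mem_filter] at hp
      exact mem_range.2 hp.2)]
  refine sum_congr rfl fun a ha => ?_
  refine sum_congr ?_ fun _ _ => rfl
  ext p
  simp only [HasAntidiagonal.mem_antidiagonal, mem_filter, mem_product, mem_range] at ha ⊢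
  constructor
  · intro h; exact ⟨⟨⟨by omega, by omega⟩, by omega⟩, h⟩
  · rintro ⟨_, h⟩; exact h

lemma InjBound.nonneg {γ : ℕ → ℕ → ℂ} {B : ℝ} (h : InjBound γ B) : 0 ≤ B := by
  simpa using h (fun _ => 0) (fun _ => 0) (by simp) (by simp) 0

lemma InjBound.mono {γ : ℕ → ℕ → ℂ} {B B' : ℝ} (h : InjBound γ B) (hB : B ≤ B') :
    InjBound γ B' := fun x y hx hy M => (h x y hx hy M).trans hB

lemma InjBound.add {γ γ' : ℕ → ℕ → ℂ} {B B' : ℝ} (h : InjBound γ B) (h' : InjBound γ' B') :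
    InjBound (fun m k => γ m k + γ' m k) (B + B') := by
  intro x y hx hy M
  have e1 : ∑ m ∈ range M, ∑ k ∈ range M, (γ m k + γ' m k) * x m * y k
      = (∑ m ∈ range M, ∑ k ∈ range M, γ m k * x m * y k)
        + ∑ m ∈ range M, ∑ k ∈ range M, γ' m k * x m * y k := by
    rw [← sum_add_distrib]
    refine sum_congr rfl (fun m _ => ?_)
    rw [← sum_add_distrib]
    exact sum_congr rfl (fun k _ => by ring)
  rw [e1]
  exact (norm_add_le _ _).trans (add_le_add (h x y hx hy M) (h' x y hx hy M))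

/-- Convolutions of matrices with bounded injective norm. -/
theorem injBound_conv {γ δ : ℕ → ℕ → ℂ} {B B' : ℝ} (hγ : InjBound γ B) (hδ : InjBound δ B') :
    InjBound (conv γ δ) (32768 * (B * B')) := by
  intro x y hx hy N
  have h := Y189.BA.tensor (M := N) (γ := γ) (δ := δ) (B := B) (B' := B')
    (fun x y hx hy => hγ x y hx hy N) (fun x y hx hy => hδ x y hx hy N)
    (fun m n => if m + n < N then x (m + n) else 0)
    (fun m n => if m + n < N then y (m + n) else 0)
    (fun m n => by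
      split_ifs
      · exact hx _
      · simp)
    (fun m n => by
      split_ifs
      · exact hy _
      · simp)
  refine le_trans (le_of_eq ?_) h
  congr 1
  have e1 : ∑ a ∈ range N, ∑ b ∈ range N, conv γ δ a b * x a * y b
      = ∑ a ∈ range N, ∑ p ∈ HasAntidiagonal.antidiagonal a, ∑ k ∈ range N, ∑ l ∈ range N,
        if k + l < N then γ p.1 k * δ p.2 l * x (p.1 + p.2) * y (k + l) else 0 := by
    refine sum_congr rfl fun a _ => ?_
    have e2 : ∀ b ∈ range N, conv γ δ a b * x a * y b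
        = ∑ p ∈ HasAntidiagonal.antidiagonal a, ∑ q ∈ HasAntidiagonal.antidiagonal b,
          γ p.1 q.1 * δ p.2 q.2 * x (p.1 + p.2) * y (q.1 + q.2) := by
      intro b _
      unfold conv
      rw [sum_mul, sum_mul]
      refine sum_congr rfl fun p hp => ?_
      rw [sum_mul, sum_mul]
      refine sum_congr rfl fun q hq => ?_
      rw [HasAntidiagonal.mem_antidiagonal] at hp hq
      rw [hp, hq]
    rw [sum_congr rfl e2, sum_comm]
    refine sum_congr rfl fun p _ => ?_
    rw [sum_anti N (fun k l => γ p.1 k * δ p.2 l * x (p.1 + p.2) * y (k + l))]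
  rw [e1, sum_anti N (fun m n => ∑ k ∈ range N, ∑ l ∈ range N,
    if k + l < N then γ m k * δ n l * x (m + n) * y (k + l) else 0)]
  refine sum_congr rfl fun m _ => ?_
  unfold Y189.BA.bf
  simp_rw [mul_sum]
  rw [sum_comm]
  rw [sum_comm]
  have e3 : ∀ n ∈ range N, (if m + n < N then ∑ k ∈ range N, ∑ l ∈ range N,
      (if k + l < N then γ m k * δ n l * x (m + n) * y (k + l) else 0) else 0)
      = ∑ k ∈ range N, ∑ l ∈ range N, γ m k * (δ n l * (if m + n < N then x (m + n) else 0)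
        * (if k + l < N then y (k + l) else 0)) := by
    intro n _
    by_cases h : m + n < N
    · simp only [h, if_true]
      refine sum_congr rfl fun k _ => sum_congr rfl fun l _ => ?_
      by_cases h' : k + l < N
      · simp only [h', if_true]; ring
      · simp only [h', if_false]; ring
    · simp only [h, if_false]
      symm
      refine sum_eq_zero fun k _ => sum_eq_zero fun l _ => ?_
      ring
  rw [sum_congr rfl e3, sum_comm]

lemma conv_sub_left (γ γ' δ : ℕ → ℕ → ℂ) (a b : ℕ) :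
    conv (fun m k => γ m k - γ' m k) δ a b = conv γ δ a b - conv γ' δ a b := by
  unfold conv
  rw [← sum_sub_distrib]
  refine sum_congr rfl fun p _ => ?_
  rw [← sum_sub_distrib]
  exact sum_congr rfl fun q _ => by ring

lemma conv_sub_right (γ δ δ' : ℕ → ℕ → ℂ) (a b : ℕ) :
    conv γ (fun m k => δ m k - δ' m k) a b = conv γ δ a b - conv γ δ' a b := by
  unfold conv
  rw [← sum_sub_distrib]
  refine sum_congr rfl fun p _ => ?_
  rw [← sum_sub_distrib]
  exact sum_congr rfl fun q _ => by ring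

lemma conv_finite {γ δ : ℕ → ℕ → ℂ} {M M' : ℕ} (hγ : ∀ m k, M ≤ m ∨ M ≤ k → γ m k = 0)
    (hδ : ∀ m k, M' ≤ m ∨ M' ≤ k → δ m k = 0) :
    ∀ a b, M + M' ≤ a ∨ M + M' ≤ b → conv γ δ a b = 0 := by
  intro a b hab
  unfold conv
  refine sum_eq_zero fun p hp => sum_eq_zero fun q hq => ?_
  rw [HasAntidiagonal.mem_antidiagonal] at hp hq
  by_cases h : M ≤ p.1 ∨ M ≤ q.1
  · rw [hγ _ _ h, zero_mul]
  · rw [hδ p.2 q.2 (by omega), mul_zero]

theorem inInjective_conv {γ δ : ℕ → ℕ → ℂ} {B B' : ℝ} (hγ : InjBound γ B) (hδ : InjBound δ B')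
    (hγ' : InInjective γ) (hδ' : InInjective δ) : InInjective (conv γ δ) := by
  intro ε hε
  have hB := hγ.nonneg
  have hB' := hδ.nonneg
  obtain ⟨η, hη0, hη1, hη⟩ : ∃ η : ℝ, 0 < η ∧ η ≤ 1 ∧ 32768 * (η * B') + 32768 * ((B + 1) * η) ≤ ε := by
    have hpos : 0 < 32768 * (B' + B + 1) := by positivity
    refine ⟨min 1 (ε / (32768 * (B' + B + 1))), by positivity, min_le_left _ _, ?_⟩
    have h1 : min 1 (ε / (32768 * (B' + B + 1))) ≤ ε / (32768 * (B' + B + 1)) := min_le_right _ _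
    rw [le_div_iff₀ hpos] at h1
    nlinarith
  obtain ⟨γ', ⟨M, hM⟩, h1⟩ := hγ' η hη0
  obtain ⟨δ', ⟨M', hM'⟩, h2⟩ := hδ' η hη0
  refine ⟨conv γ' δ', ⟨M + M', conv_finite hM hM'⟩, ?_⟩
  have h3 : InjBound γ' (B + 1) := by
    intro x y hx hy N
    have e : ∑ m ∈ range N, ∑ k ∈ range N, γ' m k * x m * y k
        = ∑ m ∈ range N, ∑ k ∈ range N, γ m k * x m * y k
          - ∑ m ∈ range N, ∑ k ∈ range N, (γ m k - γ' m k) * x m * y k := by
      rw [← sum_sub_distrib]
      refine sum_congr rfl fun m _ => ?_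
      rw [← sum_sub_distrib]
      exact sum_congr rfl fun k _ => by ring
    rw [e]
    refine (norm_sub_le _ _).trans ?_
    have := hγ x y hx hy N
    have := h1 x y hx hy N
    linarith
  have h4 := (injBound_conv h1 hδ).add (injBound_conv h3 h2)
  refine InjBound.mono (fun x y hx hy N => ?_) hη
  refine le_trans (le_of_eq ?_) (h4 x y hx hy N)
  congr 1
  refine sum_congr rfl fun a _ => sum_congr rfl fun b _ => ?_
  simp only [conv_sub_left, conv_sub_right]
  ring

theorem represents_conv {γ δ : ℕ → ℕ → ℂ} {φ ψ : PowerSeries ℂ} (hγ : Represents γ φ)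
    (hδ : Represents δ ψ) : Represents (conv γ δ) (φ * ψ) := by
  intro n
  rw [PowerSeries.coeff_mul]
  have e1 : ∀ p ∈ HasAntidiagonal.antidiagonal n, PowerSeries.coeff p.1 φ * PowerSeries.coeff p.2 ψ
      = ∑ q ∈ HasAntidiagonal.antidiagonal p.1 ×ˢ HasAntidiagonal.antidiagonal p.2,
        γ q.1.1 q.1.2 * δ q.2.1 q.2.2 := by
    intro p _
    rw [← hγ, ← hδ, sum_mul_sum, sum_product]
  rw [sum_congr rfl e1]
  unfold conv
  have e2 : ∀ p ∈ HasAntidiagonal.antidiagonal n, ∑ a ∈ HasAntidiagonal.antidiagonal p.1,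
      ∑ b ∈ HasAntidiagonal.antidiagonal p.2, γ a.1 b.1 * δ a.2 b.2
      = ∑ q ∈ HasAntidiagonal.antidiagonal p.1 ×ˢ HasAntidiagonal.antidiagonal p.2,
        γ q.1.1 q.2.1 * δ q.1.2 q.2.2 := by
    intro p _
    rw [sum_product]
  rw [sum_congr rfl e2, sum_sigma', sum_sigma']
  refine sum_nbij'
    (fun z => ⟨(z.2.1.1 + z.2.2.1, z.2.1.2 + z.2.2.2),
      ((z.2.1.1, z.2.2.1), (z.2.1.2, z.2.2.2))⟩)
    (fun z => ⟨(z.2.1.1 + z.2.2.1, z.2.1.2 + z.2.2.2),
      ((z.2.1.1, z.2.2.1), (z.2.1.2, z.2.2.2))⟩) ?_ ?_ ?_ ?_ ?_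
  · rintro ⟨⟨a, b⟩, ⟨⟨m, m'⟩, ⟨k, k'⟩⟩⟩ h
    simp only [mem_sigma, HasAntidiagonal.mem_antidiagonal, mem_product] at h ⊢
    exact ⟨by omega, by simp⟩
  · rintro ⟨⟨a, b⟩, ⟨⟨m, m'⟩, ⟨k, k'⟩⟩⟩ h
    simp only [mem_sigma, HasAntidiagonal.mem_antidiagonal, mem_product] at h ⊢
    exact ⟨by omega, by simp⟩
  · rintro ⟨⟨a, b⟩, ⟨⟨m, m'⟩, ⟨k, k'⟩⟩⟩ h
    simp only [mem_sigma, HasAntidiagonal.mem_antidiagonal, mem_product] at h ⊢
    obtain ⟨h1, h2, h3⟩ := h
    subst h2
    subst h3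
    rfl
  · rintro ⟨⟨a, b⟩, ⟨⟨m, m'⟩, ⟨k, k'⟩⟩⟩ h
    simp only [mem_sigma, HasAntidiagonal.mem_antidiagonal, mem_product] at h ⊢
    obtain ⟨h1, h2, h3⟩ := h
    subst h2
    subst h3
    rfl
  · rintro ⟨⟨a, b⟩, ⟨⟨m, m'⟩, ⟨k, k'⟩⟩⟩ _
    rfl

/-- **Q2: `𝓛` is a Banach algebra under pointwise multiplication.** There is a constant `C` such
that the product of any two elements of `𝓛` is in `𝓛` and has norm at most `C` times the product
of the norms. -/
theorem result : ∃ C : ℝ, ∀ φ ∈ spaceL, ∀ ψ ∈ spaceL,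
    φ * ψ ∈ spaceL ∧ normL (φ * ψ) ≤ C * normL φ * normL ψ := by
  refine ⟨32768, fun φ hφ ψ hψ => ⟨?_, ?_⟩⟩
  · obtain ⟨γ, B, h1, h2, h3⟩ := hφ
    obtain ⟨δ, B', h1', h2', h3'⟩ := hψ
    exact ⟨conv γ δ, _, inInjective_conv h2 h2' h1 h1', injBound_conv h2 h2',
      represents_conv h3 h3'⟩
  · set S := {B : ℝ | ∃ γ, InInjective γ ∧ InjBound γ B ∧ Represents γ φ} with hS
    set S' := {B : ℝ | ∃ γ, InInjective γ ∧ InjBound γ B ∧ Represents γ ψ} with hS'
    have hne : S.Nonempty := by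
      obtain ⟨γ, B, h1, h2, h3⟩ := hφ
      exact ⟨B, γ, h1, h2, h3⟩
    have hne' : S'.Nonempty := by
      obtain ⟨γ, B, h1, h2, h3⟩ := hψ
      exact ⟨B, γ, h1, h2, h3⟩
    have hbdd : BddBelow {B : ℝ | ∃ γ, InInjective γ ∧ InjBound γ B ∧ Represents γ (φ * ψ)} :=
      ⟨0, fun B ⟨_, _, h, _⟩ => h.nonneg⟩
    have key : ∀ B ∈ S, ∀ B' ∈ S', normL (φ * ψ) ≤ 32768 * (B * B') := by
      rintro B ⟨γ, h1, h2, h3⟩ B' ⟨δ, h1', h2', h3'⟩
      exact csInf_le hbdd ⟨conv γ δ, inInjective_conv h2 h2' h1 h1', injBound_conv h2 h2',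
        represents_conv h3 h3'⟩
    have hnonneg : ∀ B ∈ S, 0 ≤ B := fun B ⟨_, _, h, _⟩ => h.nonneg
    have hnonneg' : ∀ B ∈ S', 0 ≤ B := fun B ⟨_, _, h, _⟩ => h.nonneg
    have hA : 0 ≤ normL φ := Real.sInf_nonneg hnonneg
    have hA' : 0 ≤ normL ψ := Real.sInf_nonneg hnonneg'
    refine le_of_forall_pos_le_add fun ε hε => ?_
    obtain ⟨η, hη0, hη⟩ : ∃ η : ℝ, 0 < η ∧
        32768 * ((normL φ + η) * (normL ψ + η)) ≤ 32768 * normL φ * normL ψ + ε := by
      have hpos : 0 < 32768 * (normL φ + normL ψ + 1) := by positivity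
      refine ⟨min 1 (ε / (32768 * (normL φ + normL ψ + 1))), by positivity, ?_⟩
      set η := min 1 (ε / (32768 * (normL φ + normL ψ + 1)))
      have h1 : η ≤ ε / (32768 * (normL φ + normL ψ + 1)) := min_le_right _ _
      have h2 : η ≤ 1 := min_le_left _ _
      have h3 : 0 < η := by positivity
      rw [le_div_iff₀ hpos] at h1
      nlinarith
    obtain ⟨B, hB, hB1⟩ := exists_lt_of_csInf_lt hne (lt_add_of_pos_right (sInf S) hη0)
    obtain ⟨B', hB', hB1'⟩ := exists_lt_of_csInf_lt hne' (lt_add_of_pos_right (sInf S') hη0)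
    refine (key B hB B' hB').trans (le_trans ?_ hη)
    have e : sInf S = normL φ := rfl
    have e' : sInf S' = normL ψ := rfl
    rw [e] at hB1
    rw [e'] at hB1'
    have := hnonneg B hB
    have := hnonneg' B' hB'
    refine mul_le_mul_of_nonneg_left ?_ (by norm_num)
    exact mul_le_mul hB1.le hB1'.le (by positivity) (by positivity)

end Pool.Agent.Results.MP_20ef18_an.BanachAlgebra
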